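import Pool.Agent.Helper73.HM.St

/-! HM MODULE RS: stationary sets reflect at almost all `g x`. -/

namespace Pool.Agent.Helper11.HM.RS

open Ordinal Cardinal ZFSet Order Filter Pool.Agent.Helper73.HODC Pool.Agent.Helper73.HE
  Pool.Agent.Helper73.HM

/-- a cofinal family -/
theorem exists_cofinal (β : Ordinal.{0}) :
    ∃ (ι : Type) (f : ι → Ordinal.{0}), #ι = β.cof ∧ (∀ i, f i < β) ∧ ∀ b < β, ∃ i, b ≤ f i := by
  obtain ⟨s, hs, hs'⟩ := Order.exists_cof_eq β.ToType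
  refine ⟨s, fun i => (Ordinal.ToType.mk.symm i.1).1, ?_, ?_, ?_⟩
  · rw [hs', cof_toType]
  · intro i
    exact (Ordinal.ToType.mk.symm i.1).2
  · intro b hb
    obtain ⟨j, hj, hj'⟩ := hs (Ordinal.ToType.mk ⟨b, hb⟩)
    refine ⟨⟨j, hj⟩, ?_⟩
    have := Ordinal.ToType.mk.symm.monotone hj'
    rw [OrderIso.symm_apply_apply] at this
    exact this

theorem rs : StRS := by
  intro κ c I U g hκ0 hc hκc hU hg1 hg2 hg3 A hA hAcof
  have hcof : c.ord.cof = c := hc.cof_ord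
  have hκ : ℵ₀ < c.ord.cof := by rw [hcof]; exact hκ0.trans_le hκc
  have hlim := isSuccLimit_of_cof hκ
  by_contra hcon
  rw [← Ultrafilter.eventually_not] at hcon
  have hch : ∀ x : I, ∃ C : Set Ordinal.{0}, ¬ Stat A (g x) →
      Club C (g x) ∧ ∀ a ∈ A, a ∈ C → ¬ a < g x := by
    intro x
    by_cases h : Stat A (g x)
    · exact ⟨∅, fun h' => absurd h h'⟩
    · have h' := h
      simp only [Stat] at h'
      push Not at h'
      obtain ⟨C, hC, hC'⟩ := h'
      exact ⟨C, fun _ => ⟨hC, fun a ha haC => not_lt.mpr (hC' a ha haC)⟩⟩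
  choose C hC using hch
  -- bounds
  have hs : ∀ β : Ordinal.{0}, ∃ s : Ordinal.{0}, β < c.ord →
      β < s ∧ s < c.ord ∧ ∀ᶠ x in (U : Filter I), ∃ γ ∈ C x, β < γ ∧ γ ≤ s := by
    intro β
    by_cases hβ : β < c.ord
    · have hf : ∀ x : I, ∃ γ : Ordinal.{0}, (∃ γ ∈ C x, β < γ ∧ γ < g x) →
          γ ∈ C x ∧ β < γ ∧ γ < g x := by
        intro x
        by_cases h : ∃ γ ∈ C x, β < γ ∧ γ < g x
        · obtain ⟨γ, h1, h2, h3⟩ := h
          exact ⟨γ, fun _ => ⟨h1, h2, h3⟩⟩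
        · exact ⟨0, fun h' => absurd h' h⟩
      choose f hf using hf
      have hall : ∀ᶠ x in (U : Filter I), f x ∈ C x ∧ β < f x ∧ f x < g x := by
        filter_upwards [hcon, hg1 β hβ] with x hx1 hx2
        exact hf x ((hC x hx1).1.1 β hx2)
      obtain ⟨s, hs1, hs2⟩ := hg2 f (hall.mono fun x hx => hx.2.2)
      refine ⟨max s (Order.succ β), fun _ => ⟨?_, max_lt hs1 (hlim.succ_lt hβ), ?_⟩⟩
      · exact lt_of_lt_of_le (Order.lt_succ β) (le_max_right _ _)
      · filter_upwards [hall, hs2] with x hx1 hx2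
        exact ⟨f x, hx1.1, hx1.2.1, hx2.trans (le_max_left _ _)⟩
    · exact ⟨0, fun h => absurd h hβ⟩
  choose s hs using hs
  haveI : CountableInterFilter (U : Filter I) := hU.toCountableInterFilter _ hκ0
  set D : Set Ordinal.{0} := {β | β < c.ord ∧ ∀ᶠ x in (U : Filter I), β ∈ C x} with hD
  -- `D` is unbounded
  have hDu : ∀ β < c.ord, ∃ d ∈ D, β < d ∧ d < c.ord := by
    intro β hβ
    let u : ℕ → Ordinal.{0} := fun n => s^[n] β
    have hsucc : ∀ n, u (n + 1) = s (u n) := fun n => Function.iterate_succ_apply' s n β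
    have hu : ∀ n, u n < c.ord := by
      intro n
      induction n with
      | zero => exact hβ
      | succ n ih => rw [hsucc]; exact (hs _ ih).2.1
    have hmono : StrictMono u := by
      apply strictMono_nat_of_lt_succ
      intro n
      rw [hsucc]
      exact (hs _ (hu n)).1
    have hle : ∀ n, u n ≤ ⨆ n, u n := fun n => Ordinal.le_iSup u n
    have hlt : ∀ n, u n < ⨆ n, u n := fun n => (hmono (Nat.lt_succ_self n)).trans_le (hle _)
    have hsup : (⨆ n, u n) < c.ord := by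
      apply iSup_lt_of_lt_cof _ hu
      rw [Cardinal.mk_nat]
      exact hκ
    have hev : ∀ᶠ x in (U : Filter I), ∀ n, ∃ γ ∈ C x, u n < γ ∧ γ ≤ u (n + 1) := by
      rw [eventually_countable_forall]
      intro n
      rw [hsucc]
      exact (hs _ (hu n)).2.2
    refine ⟨⨆ n, u n, ⟨hsup, ?_⟩, hlt 0, hsup⟩
    filter_upwards [hev, hcon, hg1 _ hsup] with x hx1 hx2 hx3
    refine (hC x hx2).1.2 _ hx3 (ne_of_gt (lt_of_le_of_lt zero_le (hlt 0))) ?_
    intro b hb
    obtain ⟨n, hn⟩ := Ordinal.lt_iSup_iff.mp hb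
    obtain ⟨γ, h1, h2, h3⟩ := hx1 n
    exact ⟨γ, h1, hn.trans h2, h3.trans_lt (hlt _)⟩
  -- limit points of `D`
  have hclub : Club {β | UnbIn D β ∧ 0 < β} c.ord := by
    refine ⟨?_, ?_⟩
    · intro a ha
      have hch : ∀ x : Ordinal.{0}, ∃ y, x < c.ord → y ∈ D ∧ x < y ∧ y < c.ord := by
        intro x
        by_cases hx : x < c.ord
        · obtain ⟨d, h1, h2, h3⟩ := hDu x hx
          exact ⟨d, fun _ => ⟨h1, h2, h3⟩⟩
        · exact ⟨0, fun h' => absurd h' hx⟩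
      choose f hf using hch
      obtain ⟨t, hat, htκ, -, ht⟩ := exists_lim hκ f (fun x hx => (hf x hx).2) a ha
      refine ⟨t, ⟨?_, lt_of_le_of_lt zero_le hat⟩, hat, htκ⟩
      intro b hb
      obtain ⟨x, hbx, hxκ, hxt⟩ := ht b hb
      exact ⟨f x, (hf x hxκ).1, hbx.trans (hf x hxκ).2.1, hxt⟩
    · intro a ha ha0 hu
      refine ⟨?_, pos_iff_ne_zero.mpr ha0⟩
      intro b hb
      obtain ⟨b', ⟨h1, _⟩, h2, h3⟩ := hu b hb
      obtain ⟨d, hd, h4, h5⟩ := h1 b h2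
      exact ⟨d, hd, h4, h5.trans h3⟩
  obtain ⟨β, hβA, ⟨hβD, hβ0⟩, hβc⟩ := hA _ hclub
  obtain ⟨ι, f, hι, hf1, hf2⟩ := exists_cofinal β
  have hch : ∀ i, ∃ d ∈ D, f i < d ∧ d < β := fun i => hβD (f i) (hf1 i)
  choose d hd1 hd2 hd3 using hch
  have hall : ∀ᶠ x in (U : Filter I), ∀ i, d i ∈ C x := by
    rw [eventually_cardinal_forall (c := κ) (by rw [hι]; exact hAcof β hβA)]
    exact fun i => (hd1 i).2
  have hfalse : ∀ᶠ x in (U : Filter I), False := by
    filter_upwards [hall, hcon, hg1 β hβc] with x hx1 hx2 hx3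
    refine (hC x hx2).2 β hβA ((hC x hx2).1.2 β hx3 hβ0.ne' ?_) hx3
    intro b hb
    obtain ⟨i, hi⟩ := hf2 b hb
    exact ⟨d i, hx1 i, hi.trans_lt (hd2 i), hd3 i⟩
  exact (hfalse.exists).elim fun _ h => h

end Pool.Agent.Helper11.HM.RS
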